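import Pool.Agent.H58.Bih2

namespace Pool.Agent.Results.MP_44343f_gt.Disproof
open Pool.Agent.H58.Riem
open scoped ContDiff

theorem result : ∃ (h : Met 3) (φ : (Fin 2 → ℝ) → Fin 3 → ℝ),
    IsMetric h ∧ IsCompleteMetric h ∧ (∀ y X Y, secNum h y X Y ≤ 0) ∧
    ContDiff ℝ ∞ φ ∧ IsMetric (pull h φ) ∧ IsCompleteMetric (pull h φ) ∧
    (∀ y, bitension (pull h φ) h φ y = 0) ∧ ∀ y, tension (pull h φ) h φ y ≠ 0 := by
  refine ⟨Ex.w.G, emb, Ex.met, Ex.w.complete Ex.met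
    (fun r t => Ex.quad_ge (Ex.l_le r) (Ex.ρ_le r) t) Ex.b_ge, Ex.sec, ?_, ?_, ?_, Ex.bih,
    fun y h => ?_⟩
  · refine contDiff_pi.2 fun i => ?_
    induction i using Warp.forall3 <;> simp only [emb, v30, v31, v32] <;> fun_prop
  · rw [Ex.w.pull_eq Ex.a0]
    exact Ex.met2
  · rw [Ex.w.pull_eq Ex.a0]
    exact Ex.w.complete2 Ex.met2 Ex.b_ge
  · rw [Ex.w.tension_eq Ex.a0 Ex.ar0] at h
    exact (Ex.T_pos (y 0)).ne' (congrFun h 1)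

end Pool.Agent.Results.MP_44343f_gt.Disproof
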